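import Pool.Agent.T6.H52.LS.All

/-!
MP_0f1fb3_an, Q1: negative answer.

There is a metric space `X`, homeomorphic to the 2-sphere and of finite Hausdorff 2-measure, which
is doubling and 2-Loewner, and which is not a quasisphere.
-/

set_option autoImplicit false

namespace Pool.Agent.Results.MP_0f1fb3_an.DoublingLoewnerSphere

open MeasureTheory Set Metric
open scoped ENNReal NNReal

/-- The unit sphere of `ℝ³` with the chordal metric, that is, the Riemann sphere. -/
abbrev S2 : Type := Metric.sphere (0 : EuclideanSpace ℝ (Fin 3)) 1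

/-- `f` is a quasisymmetric homeomorphism. -/
def QS {Y X : Type} [MetricSpace Y] [MetricSpace X] (f : Y ≃ₜ X) : Prop :=
  ∃ η : ℝ≥0 ≃ₜ ℝ≥0, ∀ (x a y : Y) (t : ℝ≥0), dist x a ≤ t * dist y a →
    dist (f x) (f a) ≤ η t * dist (f y) (f a)

/-- Doubling metric space. -/
def Doubling (X : Type) [MetricSpace X] : Prop :=
  ∃ N : ℕ, ∀ (x : X) (r : ℝ), 0 < r → ∃ s : Finset X, s.card ≤ N ∧
    ball x r ⊆ ⋃ y ∈ s, ball y (r / 2)

/-- `ρ` is admissible for the family of the curves joining `E` to `F`: its integral along every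
rectifiable curve from `E` to `F`, parametrised by arc length on `[0, L]`, is at least `1`. -/
def Adm {X : Type} [MetricSpace X] (E F : Set X) (ρ : X → ℝ≥0∞) : Prop :=
  ∀ (L : ℝ) (γ : ℝ → X), 0 ≤ L → HasUnitSpeedOn γ (Icc 0 L) → γ 0 ∈ E → γ L ∈ F →
    1 ≤ ∫⁻ s in Icc 0 L, ρ (γ s)

/-- The 2-modulus of the family of curves joining `E` to `F`, with respect to the Hausdorff
2-measure. -/
noncomputable def Mod2 {X : Type} [MetricSpace X] [MeasurableSpace X] [BorelSpace X]
    (E F : Set X) : ℝ≥0∞ :=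
  ⨅ (ρ : X → ℝ≥0∞) (_ : Measurable ρ) (_ : Adm E F ρ), ∫⁻ x, ρ x ^ 2 ∂(μH[2] : Measure X)

/-- Nondegenerate continuum. -/
def Cont {X : Type} [MetricSpace X] (E : Set X) : Prop :=
  IsCompact E ∧ IsPreconnected E ∧ E.Nontrivial

/-- 2-Loewner space (for compact sets the distance is attained). -/
def Loewner (X : Type) [MetricSpace X] [MeasurableSpace X] [BorelSpace X] : Prop :=
  ∃ φ : ℝ → ℝ, (∀ t, 0 < t → 0 < φ t) ∧ ∀ (t : ℝ) (E F : Set X), 0 < t → Cont E → Cont F →
    Disjoint E F → (∃ e ∈ E, ∃ p ∈ F, dist e p ≤ t * min (diam E) (diam F)) →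
    ENNReal.ofReal (φ t) ≤ Mod2 E F

/-- There is a metric 2-sphere of finite area which is doubling and 2-Loewner and which is not a
quasisphere. -/
theorem result : ∃ (X : Type) (_ : MetricSpace X) (_ : MeasurableSpace X) (_ : BorelSpace X),
    Nonempty (S2 ≃ₜ X) ∧ (μH[2] : Measure X) univ < ∞ ∧ Doubling X ∧ Loewner X ∧
      ¬ ∃ F : S2 ≃ₜ X, QS F :=
  Pool.Agent.T6.H52.LS.all_main

end Pool.Agent.Results.MP_0f1fb3_an.DoublingLoewnerSphere
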